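import Pool.Agent.W307.QF.Stm

/-! Project QF (owner helper307), part QF-CNTE: auxiliary lemmas. -/

set_option autoImplicit false

namespace Pool.Agent.W612.QF

open Finset Polynomial

theorem eval_mod (P : ℤ[X]) {a b n : ℤ} (h : n ∣ a - b) : n ∣ P.eval a - P.eval b :=
  h.trans (Polynomial.sub_dvd_eval_sub a b P)

theorem dvd_mod (P : ℤ[X]) {a b n k : ℤ} (h : n ∣ a - b) (hk : k ∣ n) :
    k ∣ P.eval a ↔ k ∣ P.eval b :=
  dvd_iff_dvd_of_dvd_sub (hk.trans (eval_mod P h))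

theorem jac_mod {p : ℕ} (hp : p ≠ 0) {D D' : ℤ} (h : (p : ℤ) ^ 2 ∣ D - D') (h1 : (p : ℤ) ∣ D) :
    jacobiSym (D / p) p = jacobiSym (D' / p) p := by
  have hp' : (p : ℤ) ≠ 0 := by exact_mod_cast hp
  have h2 : (p : ℤ) ∣ D' :=
    (dvd_iff_dvd_of_dvd_sub ((dvd_pow_self (p : ℤ) two_ne_zero).trans h)).1 h1
  obtain ⟨a, rfl⟩ := h1
  obtain ⟨b, rfl⟩ := h2
  rw [Int.mul_ediv_cancel_left _ hp', Int.mul_ediv_cancel_left _ hp']
  apply jacobiSym.mod_left'
  rw [← mul_sub, sq] at h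
  have h3 := (mul_dvd_mul_iff_left hp').1 h
  have h4 : b ≡ a [ZMOD p] := Int.modEq_iff_dvd.2 h3
  exact h4.symm

theorem fiber_count (T : Finset ℕ) (Z : Finset ℕ) (e : ℕ → ℕ) (W : ℕ → Finset ℕ) (B : ℝ)
    (hW : ∀ t ∈ T, ∀ p ∈ Z, t % e p ∈ W p)
    (hcop : ∀ p ∈ Z, ∀ q ∈ Z, p ≠ q → (e p).Coprime (e q))
    (hfib : ∀ r : ℕ, ((T.filter (fun t => t ≡ r [MOD ∏ p ∈ Z, e p])).card : ℝ) ≤ B) :
    (T.card : ℝ) ≤ (∏ p ∈ Z, ((W p).card : ℝ)) * B := by
  have h1 : T.card = ∑ φ ∈ Fintype.piFinset (fun p : Z => W p),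
      (T.filter (fun t => (fun p : Z => t % e p) = φ)).card := by
    apply card_eq_sum_card_fiberwise
    intro t ht
    rw [mem_coe, Fintype.mem_piFinset]
    exact fun p => hW t ht p p.2
  rw [h1, Nat.cast_sum]
  have h2 : ∀ φ ∈ Fintype.piFinset (fun p : Z => W p),
      ((T.filter (fun t => (fun p : Z => t % e p) = φ)).card : ℝ) ≤ B := by
    intro φ _
    rcases (T.filter (fun t => (fun p : Z => t % e p) = φ)).eq_empty_or_nonempty with he | ⟨r, hr⟩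
    · rw [he, card_empty, Nat.cast_zero]
      exact (Nat.cast_nonneg _).trans (hfib 0)
    · refine le_trans ?_ (hfib r)
      rw [Nat.cast_le]
      apply card_le_card
      intro t ht
      rw [mem_filter] at ht hr ⊢
      refine ⟨ht.1, ?_⟩
      apply Nat.ModEq.symm
      rw [Nat.modEq_iff_dvd]
      push_cast
      apply Finset.prod_dvd_of_coprime
      · intro p hp q hq hpq
        exact Nat.isCoprime_iff_coprime.2 (hcop p hp q hq hpq)
      · intro p hp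
        have h3 := congrFun (hr.2.trans ht.2.symm) ⟨p, hp⟩
        exact Nat.modEq_iff_dvd.1 h3
  refine (sum_le_sum h2).trans (le_of_eq ?_)
  rw [sum_const, nsmul_eq_mul, Fintype.card_piFinset, Nat.cast_prod]
  congr 1
  exact Finset.prod_coe_sort Z (fun p => ((W p).card : ℝ))

theorem prod_cover {S A B : Finset ℕ} (F : ℕ → ℝ) (h : S ⊆ A ∪ B) (hA : ∀ p ∈ A, 1 ≤ F p)
    (hB : ∀ p ∈ B, 1 ≤ F p) : ∏ p ∈ S, F p ≤ (∏ p ∈ A, F p) * ∏ p ∈ B, F p := by
  have hAB : ∀ p ∈ A ∪ B, 1 ≤ F p := fun p hp => (mem_union.1 hp).elim (hA p) (hB p)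
  have h1 : ∏ p ∈ S, F p ≤ ∏ p ∈ A ∪ B, F p := by
    rw [← prod_sdiff h]
    refine le_mul_of_one_le_left (prod_nonneg fun p hp => zero_le_one.trans (hAB p (h hp))) ?_
    exact one_le_prod fun p hp => hAB p (mem_sdiff.1 hp).1
  refine h1.trans ?_
  rw [← prod_union_inter]
  refine le_mul_of_one_le_right (prod_nonneg fun p hp => zero_le_one.trans (hAB p hp)) ?_
  exact one_le_prod fun p hp => hA p (mem_inter.1 hp).1

theorem card_primeFactors_prod {J : Type} [Fintype J] [DecidableEq J] (s : J → ℕ)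
    (hs : ∀ j, s j ≠ 0) :
    (∏ j, s j).primeFactors.card ≤ ∑ j, (s j).primeFactors.card := by
  refine le_trans (card_le_card ?_) (card_biUnion_le (s := univ) (t := fun j => (s j).primeFactors))
  intro p hp
  have hpp := Nat.prime_of_mem_primeFactors hp
  obtain ⟨j, _, hj⟩ := (hpp.prime.dvd_finsetProd_iff _).1 (Nat.dvd_of_mem_primeFactors hp)
  exact mem_biUnion.2 ⟨j, mem_univ j, Nat.mem_primeFactors.2 ⟨hpp, hj, hs j⟩⟩

end Pool.Agent.W612.QF
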