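import Pool.Agent.W307.QF.Stm
import Pool.Agent.W612.QF.Cnt

/-! Project QF (owner helper307), part QF-CNTE: the number of the `t` with given small prime factors
and signs of the values of polynomials. -/

set_option autoImplicit false
set_option linter.all false

namespace Pool.Agent.W612.QF

open Finset Polynomial Pool.Agent.W262.RK Pool.Agent.W307.RT Pool.Agent.W307.RS
open Pool.Agent.W307.QF

variable {J : Type} [Fintype J] [DecidableEq J]

theorem S1_dvd {z y : ℕ} {f : J → ℤ} {j : J} {p : ℕ} (hp : p.Prime) (h : p ∣ S1 z y f j) :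
    p ∈ PS z y ∧ (p : ℤ) ∣ f j ∧ ¬ (p : ℤ) ^ 2 ∣ f j := by
  unfold S1 at h
  obtain ⟨q, hq, hpq⟩ := (hp.prime.dvd_finsetProd_iff _).1 h
  rw [mem_filter] at hq
  have hqp := (mem_PS.1 hq.1).2
  have h1 : p = q := (Nat.prime_dvd_prime_iff_eq hp hqp).1 hpq
  subst h1
  exact hq

theorem S2_dvd {z y : ℕ} {f : J → ℤ} {j : J} {p : ℕ} (hp : p.Prime) (h : p ∣ S2 z y f j) :
    p ∈ PS z y ∧ (p : ℤ) ^ 2 ∣ f j := by
  unfold S2 at h
  obtain ⟨q, hq, hpq⟩ := (hp.prime.dvd_finsetProd_iff _).1 h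
  rw [mem_filter] at hq
  have hqp := (mem_PS.1 hq.1).2
  have h1 : p = q := (Nat.prime_dvd_prime_iff_eq hp hqp).1 hpq
  subst h1
  exact hq

theorem dvd_S1 {z y : ℕ} {f : J → ℤ} {j : J} {p : ℕ} (hp : p ∈ PS z y) (h : (p : ℤ) ∣ f j)
    (h2 : ¬ (p : ℤ) ^ 2 ∣ f j) : p ∣ S1 z y f j :=
  dvd_prod_of_mem _ (mem_filter.2 ⟨hp, h, h2⟩)

theorem dvd_S2 {z y : ℕ} {f : J → ℤ} {j : J} {p : ℕ} (hp : p ∈ PS z y)
    (h2 : (p : ℤ) ^ 2 ∣ f j) : p ∣ S2 z y f j :=
  dvd_prod_of_mem _ (mem_filter.2 ⟨hp, h2⟩)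

/-- the moduli -/
def DD (s v u : J → ℕ) (i : J × Fin 3) : ℕ := ![s i.1, v i.1, u i.1] i.2

/-- the exponents of the moduli -/
def ee (y p : ℕ) : ℕ := if y < p then p else p ^ 2

/-- the allowed residue classes -/
noncomputable def WW (P : J → ℤ[X]) (s v u : J → ℕ) (E : Finset ℕ) (y p : ℕ) : Finset ℕ := by
  classical
  exact (range (ee y p)).filter (fun x : ℕ =>
    (∀ j, p ∣ s j → (p : ℤ) ∣ (P j).eval (x : ℤ) ∧ ¬ (p : ℤ) ^ 2 ∣ (P j).eval (x : ℤ) ∧
      (p ∈ E ↔ jacobiSym ((∏ l, (P l).eval (x : ℤ)) / (p : ℤ)) p = -1)) ∧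
    (∀ j, p ∣ v j → (p : ℤ) ^ 2 ∣ (P j).eval (x : ℤ)) ∧
    (∀ j, p ∣ u j → (p : ℤ) ∣ (P j).eval (x : ℤ)))

theorem mem_WW {P : J → ℤ[X]} {s v u : J → ℕ} {E : Finset ℕ} {y p x : ℕ} :
    x ∈ WW P s v u E y p ↔ x < ee y p ∧
    (∀ j, p ∣ s j → (p : ℤ) ∣ (P j).eval (x : ℤ) ∧ ¬ (p : ℤ) ^ 2 ∣ (P j).eval (x : ℤ) ∧
      (p ∈ E ↔ jacobiSym ((∏ l, (P l).eval (x : ℤ)) / (p : ℤ)) p = -1)) ∧
    (∀ j, p ∣ v j → (p : ℤ) ^ 2 ∣ (P j).eval (x : ℤ)) ∧
    (∀ j, p ∣ u j → (p : ℤ) ∣ (P j).eval (x : ℤ)) := by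
  unfold WW
  rw [mem_filter, mem_range]

/-- the local factor -/
noncomputable def tg (r : J → ℕ → ℕ) (c : ℕ) (i : J × Fin 3) (p : ℕ) : ℝ :=
  ![(1 / 2) * (1 / ((p : ℝ) - c) * (r i.1 p : ℝ)), (c : ℝ) * (1 / ((p : ℝ) - c) / p),
    (c : ℝ) * (1 / (p : ℝ))] i.2

/-- the density of the sieve -/
noncomputable def hf (c y p : ℕ) : ℝ := if y < p then 1 else (p : ℝ) / ((p : ℝ) - c)

theorem prod_DD (s v u : J → ℕ) : ∏ i : J × Fin 3, DD s v u i = ∏ j, s j * v j * u j := by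
  rw [Fintype.prod_prod_type]
  refine prod_congr rfl fun j _ => ?_
  rw [Fin.prod_univ_three]
  rfl

/-- the product of the local factors -/
theorem prod_tg (r : J → ℕ → ℕ) (c : ℕ) (s v u : J → ℕ) (hs : ∀ j, s j ≠ 0)
    (hv : ∀ j, Squarefree (v j)) (hu : ∀ j, Squarefree (u j))
    (hsp : ∀ j, ∀ p ∈ (s j).primeFactors, (c : ℝ) < p)
    (hvp : ∀ j, ∀ p ∈ (v j).primeFactors, (c : ℝ) < p) :
    ∏ i : J × Fin 3, ∏ p ∈ (DD s v u i).primeFactors, tg r c i p ≤
      (1 / 2) ^ (∏ j, s j).primeFactors.card *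
        (∏ j, (gw 1 c (s j) * rr (r j) (s j))) *
        (∏ j, (c : ℝ) ^ (v j).primeFactors.card * (gw 1 c (v j) / v j)) *
        (∏ j, (c : ℝ) ^ (u j).primeFactors.card * (1 / (u j : ℝ))) := by
  have e0 : ∀ j, ∏ p ∈ (DD s v u (j, 0)).primeFactors, tg r c (j, 0) p =
      (1 / 2) ^ (s j).primeFactors.card * (gw 1 c (s j) * rr (r j) (s j)) := by
    intro j
    show ∏ p ∈ (s j).primeFactors, (1 / 2) * (1 / ((p : ℝ) - c) * (r j p : ℝ)) = _
    rw [prod_mul_distrib, prod_const, prod_mul_distrib]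
    rfl
  have e1 : ∀ j, ∏ p ∈ (DD s v u (j, 1)).primeFactors, tg r c (j, 1) p =
      (c : ℝ) ^ (v j).primeFactors.card * (gw 1 c (v j) / v j) := by
    intro j
    show ∏ p ∈ (v j).primeFactors, (c : ℝ) * (1 / ((p : ℝ) - c) / p) = _
    rw [prod_mul_distrib, prod_const, prod_div_distrib]
    have h1 : ((v j : ℕ) : ℝ) = ∏ p ∈ (v j).primeFactors, (p : ℝ) := by
      rw [← Nat.cast_prod, Nat.prod_primeFactors_of_squarefree (hv j)]
    conv_rhs => rw [h1]
    rfl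
  have e2 : ∀ j, ∏ p ∈ (DD s v u (j, 2)).primeFactors, tg r c (j, 2) p =
      (c : ℝ) ^ (u j).primeFactors.card * (1 / (u j : ℝ)) := by
    intro j
    show ∏ p ∈ (u j).primeFactors, (c : ℝ) * (1 / (p : ℝ)) = _
    rw [prod_mul_distrib, prod_const, prod_div_distrib, prod_const_one]
    have h1 : ((u j : ℕ) : ℝ) = ∏ p ∈ (u j).primeFactors, (p : ℝ) := by
      rw [← Nat.cast_prod, Nat.prod_primeFactors_of_squarefree (hu j)]
    conv_rhs => rw [h1]
  rw [Fintype.prod_prod_type]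
  have e3 : ∀ j, ∏ k : Fin 3, ∏ p ∈ (DD s v u (j, k)).primeFactors, tg r c (j, k) p =
      ((1 / 2) ^ (s j).primeFactors.card * (gw 1 c (s j) * rr (r j) (s j))) *
      ((c : ℝ) ^ (v j).primeFactors.card * (gw 1 c (v j) / v j)) *
      ((c : ℝ) ^ (u j).primeFactors.card * (1 / (u j : ℝ))) := by
    intro j
    rw [Fin.prod_univ_three, e0, e1, e2]
  rw [prod_congr rfl fun j _ => e3 j, prod_mul_distrib, prod_mul_distrib, prod_mul_distrib,
    prod_pow_eq_pow_sum]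
  have hgs : ∀ (d : ℕ), (∀ p ∈ d.primeFactors, (c : ℝ) < p) → 0 ≤ gw 1 c d := by
    intro d hd
    unfold gw
    exact prod_nonneg fun p hp => div_nonneg zero_le_one (sub_nonneg.2 (hd p hp).le)
  have hrr : ∀ j d, 0 ≤ rr (r j) d := fun j d => prod_nonneg fun p _ => Nat.cast_nonneg _
  have n1 : 0 ≤ ∏ j, (gw 1 c (s j) * rr (r j) (s j)) :=
    prod_nonneg fun j _ => mul_nonneg (hgs _ (hsp j)) (hrr _ _)
  have n2 : 0 ≤ ∏ j, (c : ℝ) ^ (v j).primeFactors.card * (gw 1 c (v j) / v j) :=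
    prod_nonneg fun j _ => mul_nonneg (by positivity) (div_nonneg (hgs _ (hvp j))
      (Nat.cast_nonneg _))
  have n3 : 0 ≤ ∏ j, (c : ℝ) ^ (u j).primeFactors.card * (1 / (u j : ℝ)) :=
    prod_nonneg fun j _ => by positivity
  have n4 : ((1 : ℝ) / 2) ^ (∑ j, (s j).primeFactors.card) ≤
      (1 / 2) ^ (∏ j, s j).primeFactors.card :=
    pow_le_pow_of_le_one (by norm_num) (by norm_num) (card_primeFactors_prod s hs)
  exact mul_le_mul_of_nonneg_right (mul_le_mul_of_nonneg_right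
    (mul_le_mul_of_nonneg_right n4 n1) n2) n3

theorem ee_cast_pos {y p : ℕ} (hp : p.Prime) : (0 : ℝ) < ee y p := by
  unfold ee
  split_ifs
  · exact_mod_cast hp.pos
  · exact_mod_cast pow_pos hp.pos 2

theorem local_bound (h2 : LOCC) (r : J → ℕ → ℕ) (P : J → ℤ[X]) (s v u : J → ℕ) (E : Finset ℕ)
    (c z y p : ℕ) (hz : 2 * c + 2 ≤ z) (hp : p.Prime) (hzp : z < p)
    (hr : ∀ j, r j p ≤ c) (hnz : ∀ j, nz (P j) p = r j p)
    (hcom : ∀ j l, j ≠ l → ∀ x : ℤ, ¬ ((p : ℤ) ∣ (P j).eval x ∧ (p : ℤ) ∣ (P l).eval x))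
    (hdbl : ∀ j, ∀ x : ℤ, ¬ ((p : ℤ) ∣ (P j).eval x ∧ (p : ℤ) ∣ (derivative (P j)).eval x))
    (i : J × Fin 3) (hpi : p ∣ DD s v u i) (hk : i.2 ≠ 2 → p ≤ y) (hk2 : i.2 = 2 → y < p) :
    ((WW P s v u E y p).card : ℝ) * hf c y p / (ee y p : ℝ) ≤ tg r c i p := by
  obtain ⟨hl1, hl2⟩ := h2 J P p hp (by omega) hcom hdbl
  have hp0 : (0 : ℝ) < p := by exact_mod_cast hp.pos
  have hcp : (c : ℝ) + 2 < p := by
    have : c + 2 < p := by omega
    exact_mod_cast this
  have hcp' : 0 < (p : ℝ) - c := by linarith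
  obtain ⟨j, k⟩ := i
  fin_cases k
  · have hpy : p ≤ y := hk (show (0 : Fin 3) ≠ 2 by decide)
    have hps : p ∣ s j := hpi
    have he : ee y p = p ^ 2 := if_neg (not_lt.2 hpy)
    have hh : hf c y p = (p : ℝ) / ((p : ℝ) - c) := if_neg (not_lt.2 hpy)
    classical
    have h3 : 2 * (WW P s v u E y p).card ≤ r j p * (p - 1) := by
      rw [← hnz j, ← hl1 j (decide (p ∈ E))]
      apply Nat.mul_le_mul_left
      apply card_le_card
      intro x hx
      rw [mem_WW, he] at hx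
      rw [mem_filter, mem_range]
      obtain ⟨a1, a2, a3, a4⟩ := hx
      obtain ⟨b1, b2, b3⟩ := a2 j hps
      refine ⟨a1, b1, b2, ?_⟩
      rw [decide_eq_true_iff]
      exact b3
    have h4 : (2 : ℝ) * ((WW P s v u E y p).card : ℝ) ≤ (r j p : ℝ) * ((p : ℝ) - 1) := by
      have h5 : ((2 * (WW P s v u E y p).card : ℕ) : ℝ) ≤ ((r j p * (p - 1) : ℕ) : ℝ) := by
        exact_mod_cast h3
      push_cast [Nat.cast_sub hp.one_le] at h5
      exact h5
    rw [he, hh]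
    show _ ≤ (1 / 2) * (1 / ((p : ℝ) - c) * (r j p : ℝ))
    push_cast
    have h5 : ((WW P s v u E y p).card : ℝ) * ((p : ℝ) / ((p : ℝ) - c)) / (p : ℝ) ^ 2 =
        ((WW P s v u E y p).card : ℝ) / p / ((p : ℝ) - c) := by
      field_simp
    have h6 : (1 / 2) * (1 / ((p : ℝ) - c) * (r j p : ℝ)) = ((r j p : ℝ) / 2) / ((p : ℝ) - c) := by
      ring
    rw [h5, h6]
    apply div_le_div_of_nonneg_right _ hcp'.le
    rw [div_le_iff₀ hp0]
    have h7 : (0 : ℝ) ≤ r j p := Nat.cast_nonneg _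
    nlinarith
  · have hpy : p ≤ y := hk (show (1 : Fin 3) ≠ 2 by decide)
    have hps : p ∣ v j := hpi
    have he : ee y p = p ^ 2 := if_neg (not_lt.2 hpy)
    have hh : hf c y p = (p : ℝ) / ((p : ℝ) - c) := if_neg (not_lt.2 hpy)
    have h3 : (WW P s v u E y p).card ≤ c := by
      refine le_trans ?_ (hr j)
      rw [← hnz j, ← hl2 j]
      apply card_le_card
      intro x hx
      rw [mem_WW, he] at hx
      rw [mem_filter, mem_range]
      exact ⟨hx.1, hx.2.2.1 j hps⟩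
    have h4 : ((WW P s v u E y p).card : ℝ) ≤ c := by exact_mod_cast h3
    rw [he, hh]
    show _ ≤ (c : ℝ) * (1 / ((p : ℝ) - c) / p)
    push_cast
    have h5 : ((WW P s v u E y p).card : ℝ) * ((p : ℝ) / ((p : ℝ) - c)) / (p : ℝ) ^ 2 =
        ((WW P s v u E y p).card : ℝ) * (1 / ((p : ℝ) - c) / p) := by
      field_simp
    rw [h5]
    exact mul_le_mul_of_nonneg_right h4 (by positivity)
  · have hpy : y < p := hk2 rfl
    have hps : p ∣ u j := hpi
    have he : ee y p = p := if_pos hpy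
    have hh : hf c y p = 1 := if_pos hpy
    have h3 : (WW P s v u E y p).card ≤ c := by
      refine le_trans ?_ (hr j)
      rw [← hnz j]
      unfold nz
      apply card_le_card
      intro x hx
      rw [mem_WW, he] at hx
      rw [mem_filter, mem_range]
      exact ⟨hx.1, hx.2.2.2 j hps⟩
    have h4 : ((WW P s v u E y p).card : ℝ) ≤ c := by exact_mod_cast h3
    rw [he, hh]
    show _ ≤ (c : ℝ) * (1 / (p : ℝ))
    rw [mul_one, div_eq_mul_one_div]
    exact mul_le_mul_of_nonneg_right h4 (by positivity)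

theorem cnte_of (h1 : Pool.Agent.W307.QF.SVE) (h2 : Pool.Agent.W307.QF.LOCC) :
    Pool.Agent.W307.QF.CNTE := by
  intro J I _ _ _ _ r q c z C1 hc hz hlog
  obtain ⟨C, K, y0, hC, hK, hSV⟩ := h1 (J ⊕ I) (Sum.elim r q) c z C1
    (by
      intro p
      rw [Fintype.sum_sum_type]
      exact hc p) hz
    (by
      intro y hy
      have h3 := hlog y hy
      rw [Fintype.card_sum]
      refine h3.trans (le_of_eq ?_)
      refine sum_congr rfl fun p _ => ?_
      rw [Fintype.sum_sum_type]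
      rfl)
  refine ⟨C, K, y0, hC, hK, ?_⟩
  intro P Q M X y Y hM hy0 hzy hX hPQ s hs v hv u hu hsvu E
  have hs' := (mem_Tup'.1 hs).1
  have hv' := (mem_Tup'.1 hv).1
  have hu' := (mem_Tup'.1 hu).1
  have sd : ∀ j, s j ∈ (PP z y).divisors := fun j =>
    Nat.mem_divisors.2 ⟨hs' j, PP_ne_zero _ _⟩
  have vd : ∀ j, v j ∈ (PP z y).divisors := fun j =>
    Nat.mem_divisors.2 ⟨hv' j, PP_ne_zero _ _⟩
  have ud : ∀ j, u j ∈ (PP y Y).divisors := fun j =>
    Nat.mem_divisors.2 ⟨hu' j, PP_ne_zero _ _⟩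
  have hcz : ∀ p : ℕ, z < p → (c : ℝ) < p := by
    intro p hp
    have : c < p := by omega
    exact_mod_cast this
  have hL : 0 ≤ (Real.log y) ^ (Fintype.card J + Fintype.card I) :=
    pow_nonneg (Real.log_natCast_nonneg y) _
  -- positivity of the factors
  have hF1 : ∀ p : ℕ, z < p → 1 ≤ (p : ℝ) / ((p : ℝ) - c) := by
    intro p hp
    have h3 := hcz p hp
    rw [le_div_iff₀ (by linarith), one_mul]
    have : (0 : ℝ) ≤ c := Nat.cast_nonneg _
    linarith
  obtain ⟨FM, hFM⟩ : ∃ FM : ℝ, FM = ∏ p ∈ M.primeFactors.filter (fun p => z < p),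
    (p : ℝ) / ((p : ℝ) - c) := ⟨_, rfl⟩
  have hFM0 : 0 ≤ FM := by
    rw [hFM]
    exact prod_nonneg fun p hp => zero_le_one.trans (hF1 p (mem_filter.1 hp).2)
  have hpt := prod_tg r c s v u (fun j => dv_ne_zero (sd j)) (fun j => dv_squarefree (vd j))
    (fun j => dv_squarefree (ud j))
    (fun j p hp => hcz p (dv_prime (sd j) (Nat.prime_of_mem_primeFactors hp)
      (Nat.dvd_of_mem_primeFactors hp)).1)
    (fun j p hp => hcz p (dv_prime (vd j) (Nat.prime_of_mem_primeFactors hp)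
      (Nat.dvd_of_mem_primeFactors hp)).1)
  have hDz : ∀ i : J × Fin 3, ∀ p ∈ (DD s v u i).primeFactors, z < p := by
    rintro ⟨j, k⟩ p hp
    have hpp := Nat.prime_of_mem_primeFactors hp
    have hpd := Nat.dvd_of_mem_primeFactors hp
    fin_cases k
    · exact (dv_prime (sd j) hpp hpd).1
    · exact (dv_prime (vd j) hpp hpd).1
    · exact hzy.trans (dv_prime (ud j) hpp hpd).1
  have hD0 : ∀ i : J × Fin 3, DD s v u i ≠ 0 := by
    rintro ⟨j, k⟩
    fin_cases k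
    · exact dv_ne_zero (sd j)
    · exact dv_ne_zero (vd j)
    · exact dv_ne_zero (ud j)
  have htg0 : 0 ≤ ∏ i : J × Fin 3, ∏ p ∈ (DD s v u i).primeFactors, tg r c i p := by
    refine prod_nonneg fun i _ => prod_nonneg fun p hp => ?_
    have h3 := hcz p (hDz i p hp)
    have h4 : (0 : ℝ) < (p : ℝ) - c := by linarith
    obtain ⟨j, k⟩ := i
    fin_cases k
    · show 0 ≤ (1 / 2) * (1 / ((p : ℝ) - c) * (r j p : ℝ))
      positivity
    · show 0 ≤ (c : ℝ) * (1 / ((p : ℝ) - c) / p)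
      positivity
    · show 0 ≤ (c : ℝ) * (1 / (p : ℝ))
      positivity
  -- it suffices to have the bound with the product of the local factors
  obtain ⟨T, hT⟩ : ∃ T : Finset ℕ, T = (Icc 1 X).filter (fun t : ℕ =>
      (∀ p ∈ M.primeFactors, z < p → ∀ j, ¬ (p : ℤ) ∣ (P j).eval (t : ℤ)) ∧
      S1 z y (fun j => (P j).eval (t : ℤ)) = s ∧ S2 z y (fun j => (P j).eval (t : ℤ)) = v ∧
      (∀ j, (u j : ℤ) ∣ (P j).eval (t : ℤ)) ∧
      (∀ p ∈ PS z y, ¬ p ∣ M → ∀ i, ¬ (p : ℤ) ∣ (Q i).eval (t : ℤ)) ∧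
      ng (∏ j, s j) (∏ j, (P j).eval (t : ℤ)) = E) := ⟨_, rfl⟩
  rw [← hT, ← hFM]
  suffices hsuf : (T.card : ℝ) ≤ C * X *
      (∏ i : J × Fin 3, ∏ p ∈ (DD s v u i).primeFactors, tg r c i p) * FM /
        (Real.log y) ^ (Fintype.card J + Fintype.card I) by
    refine hsuf.trans ?_
    apply div_le_div_of_nonneg_right _ hL
    apply mul_le_mul_of_nonneg_right _ hFM0
    have h3 := mul_le_mul_of_nonneg_left hpt (mul_nonneg hC (Nat.cast_nonneg (α := ℝ) X))
    refine h3.trans (le_of_eq ?_)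
    ring
  rcases T.eq_empty_or_nonempty with hTe | ⟨t0, ht0⟩
  · rw [hTe, card_empty, Nat.cast_zero]
    exact div_nonneg (mul_nonneg (mul_nonneg (mul_nonneg hC (Nat.cast_nonneg _)) htg0) hFM0) hL
  -- the properties of the elements of `T`
  have hTt : ∀ t ∈ T, ∀ i : J × Fin 3, ∀ p ∈ (DD s v u i).primeFactors,
      ((p : ℤ) ∣ (P i.1).eval (t : ℤ)) ∧
      (i.2 = 0 → p ≤ y ∧ ¬ (p : ℤ) ^ 2 ∣ (P i.1).eval (t : ℤ)) ∧
      (i.2 = 1 → p ≤ y ∧ (p : ℤ) ^ 2 ∣ (P i.1).eval (t : ℤ)) ∧ (i.2 = 2 → y < p) := by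
    rintro t ht ⟨j, k⟩ p hp
    rw [hT, mem_filter] at ht
    obtain ⟨-, m1, m2, m3, m4, m5, m6⟩ := ht
    have hpp := Nat.prime_of_mem_primeFactors hp
    have hpd := Nat.dvd_of_mem_primeFactors hp
    fin_cases k
    · have h3 : p ∣ S1 z y (fun j => (P j).eval (t : ℤ)) j := by
        rw [m2]
        exact hpd
      obtain ⟨a1, a2, a3⟩ := S1_dvd hpp h3
      refine ⟨a2, fun _ => ⟨(mem_PS.1 a1).1.2, a3⟩, fun h => absurd h ?_, fun h => absurd h ?_⟩
      · show ¬ ((0 : Fin 3) = 1)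
        decide
      · show ¬ ((0 : Fin 3) = 2)
        decide
    · have h3 : p ∣ S2 z y (fun j => (P j).eval (t : ℤ)) j := by
        rw [m3]
        exact hpd
      obtain ⟨a1, a2⟩ := S2_dvd hpp h3
      refine ⟨(dvd_pow_self (p : ℤ) two_ne_zero).trans a2, fun h => absurd h ?_,
        fun _ => ⟨(mem_PS.1 a1).1.2, a2⟩, fun h => absurd h ?_⟩
      · show ¬ ((1 : Fin 3) = 0)
        decide
      · show ¬ ((1 : Fin 3) = 2)
        decide
    · have h3 : (p : ℤ) ∣ (u j : ℤ) := by exact_mod_cast hpd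
      refine ⟨h3.trans (m4 j), fun h => absurd h ?_, fun h => absurd h ?_,
        fun _ => (dv_prime (ud j) hpp hpd).1⟩
      · show ¬ ((2 : Fin 3) = 0)
        decide
      · show ¬ ((2 : Fin 3) = 1)
        decide
  have hnM : ∀ i : J × Fin 3, ∀ p ∈ (DD s v u i).primeFactors, ¬ p ∣ M := by
    intro i p hp hpM
    have hpp := Nat.prime_of_mem_primeFactors hp
    have h3 := (hTt t0 ht0 i p hp).1
    rw [hT, mem_filter] at ht0
    exact ht0.2.1 p (Nat.mem_primeFactors.2 ⟨hpp, hpM, hM⟩) (hDz i p hp) i.1 h3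
  have hdisj : ∀ i i' : J × Fin 3, i ≠ i' →
      Disjoint (DD s v u i).primeFactors (DD s v u i').primeFactors := by
    rintro ⟨j, k⟩ ⟨j', k'⟩ hne
    rw [Finset.disjoint_left]
    intro p hp hp'
    have hpp := Nat.prime_of_mem_primeFactors hp
    obtain ⟨a1, a2, a3, a4⟩ := hTt t0 ht0 (j, k) p hp
    obtain ⟨b1, b2, b3, b4⟩ := hTt t0 ht0 (j', k') p hp'
    simp only at a1 a2 a3 a4 b1 b2 b3 b4
    have hj : j = j' := by
      by_contra hjj
      exact ((hPQ p hpp (hDz _ p hp) (hnM _ p hp)).2.2 (t0 : ℤ)).1 j j' hjj ⟨a1, b1⟩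
    subst hj
    apply hne
    congr 1
    have hk : ∀ k : Fin 3, k = 0 ∨ k = 1 ∨ k = 2 := by decide
    rcases hk k with rfl | rfl | rfl <;> rcases hk k' with rfl | rfl | rfl
    · rfl
    · exact absurd (b3 rfl).2 (a2 rfl).2
    · exact absurd (b4 rfl) (not_lt.2 (a2 rfl).1)
    · exact absurd (a3 rfl).2 (b2 rfl).2
    · rfl
    · exact absurd (b4 rfl) (not_lt.2 (a3 rfl).1)
    · exact absurd (a4 rfl) (not_lt.2 (b2 rfl).1)
    · exact absurd (a4 rfl) (not_lt.2 (b3 rfl).1)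
    · rfl
  obtain ⟨Z, hZ⟩ : ∃ Z : Finset ℕ, Z = univ.biUnion (fun i => (DD s v u i).primeFactors) :=
    ⟨_, rfl⟩
  have hZprod : ∀ g : ℕ → ℝ, ∏ p ∈ Z, g p = ∏ i, ∏ p ∈ (DD s v u i).primeFactors, g p := by
    intro g
    rw [hZ, prod_biUnion]
    intro i _ i' _ hne
    exact hdisj i i' hne
  have hZprodN : ∀ g : ℕ → ℕ, ∏ p ∈ Z, g p = ∏ i, ∏ p ∈ (DD s v u i).primeFactors, g p := by
    intro g
    rw [hZ, prod_biUnion]
    intro i _ i' _ hne
    exact hdisj i i' hne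
  have hZmem : ∀ p, p ∈ Z ↔ ∃ i, p ∈ (DD s v u i).primeFactors := by
    intro p
    rw [hZ, mem_biUnion]
    simp
  have hZp : ∀ p ∈ Z, p.Prime := by
    intro p hp
    obtain ⟨i, hi⟩ := (hZmem p).1 hp
    exact Nat.prime_of_mem_primeFactors hi
  have hZz : ∀ p ∈ Z, z < p := by
    intro p hp
    obtain ⟨i, hi⟩ := (hZmem p).1 hp
    exact hDz i p hi
  obtain ⟨m, hm⟩ : ∃ m : ℕ, m = ∏ p ∈ Z, ee y p := ⟨_, rfl⟩
  have hee1 : ∀ p ∈ Z, 1 ≤ ee y p := by
    intro p hp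
    unfold ee
    split_ifs
    · exact (hZp p hp).one_le
    · exact Nat.one_le_pow _ _ (hZp p hp).pos
  have hm1 : 1 ≤ m := by
    rw [hm]
    exact Nat.succ_le_of_lt (prod_pos fun p hp => hee1 p hp)
  have hm4 : m ^ 4 ≤ X := by
    refine le_trans ?_ hsvu
    have h3 : m ≤ (∏ j, s j * v j * u j) ^ 2 := by
      rw [← prod_DD s v u, ← prod_pow, hm, hZprodN]
      refine prod_le_prod' fun i _ => ?_
      calc ∏ p ∈ (DD s v u i).primeFactors, ee y p ≤ ∏ p ∈ (DD s v u i).primeFactors, p ^ 2 := by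
            refine prod_le_prod' fun p hp => ?_
            unfold ee
            split_ifs
            · exact Nat.le_self_pow two_ne_zero p
            · exact le_rfl
        _ = (∏ p ∈ (DD s v u i).primeFactors, p) ^ 2 := prod_pow _ _ _
        _ ≤ (DD s v u i) ^ 2 := Nat.pow_le_pow_left
            (Nat.le_of_dvd (Nat.pos_of_ne_zero (hD0 i)) (Nat.prod_primeFactors_dvd _)) 2
    calc m ^ 4 ≤ ((∏ j, s j * v j * u j) ^ 2) ^ 4 := Nat.pow_le_pow_left h3 4
      _ = (∏ j, s j * v j * u j) ^ 8 := by rw [← pow_mul]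
  -- the primes of `m`
  have hmp : ∀ p : ℕ, p.Prime → (p ∣ m ↔ p ∈ Z) := by
    intro p hp
    constructor
    · intro h
      rw [hm] at h
      obtain ⟨l, hl, hpl⟩ := (hp.prime.dvd_finsetProd_iff _).1 h
      have h3 : p ∣ l := by
        unfold ee at hpl
        split_ifs at hpl
        · exact hpl
        · exact hp.dvd_of_dvd_pow hpl
      have h4 : p = l := (Nat.prime_dvd_prime_iff_eq hp (hZp l hl)).1 h3
      rw [h4]
      exact hl
    · intro h
      rw [hm]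
      refine Dvd.dvd.trans ?_ (dvd_prod_of_mem _ h)
      unfold ee
      split_ifs
      · exact dvd_rfl
      · exact dvd_pow_self p two_ne_zero
  obtain ⟨B, hB⟩ : ∃ B : ℝ, B = C * (X / m) * (∏ p ∈ (m * M).primeFactors.filter
      (fun p => p ∈ PS z y), (p : ℝ) / ((p : ℝ) - c)) / (Real.log y) ^ (Fintype.card (J ⊕ I)) :=
    ⟨_, rfl⟩
  have hfib : ∀ r0 : ℕ, ((T.filter (fun t => t ≡ r0 [MOD ∏ p ∈ Z, ee y p])).card : ℝ) ≤ B := by
    intro r0
    rw [← hm]
    have h3 := hSV X y hy0 hzy hX (Sum.elim P Q) m (m * M) r0 hm1 (dvd_mul_right m M)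
      (mul_ne_zero (by omega) hM) hm4 (by
        intro p hp hpM
        have hpp := (mem_PS.1 hp).2
        have hzp := (mem_PS.1 hp).1.1
        have hpM' : ¬ p ∣ M := fun h => hpM (h.mul_left m)
        obtain ⟨a1, a2, a3⟩ := hPQ p hpp hzp hpM'
        refine ⟨fun j => ?_, fun j l hjl x => ?_⟩
        · rcases j with j | i
          · exact a1 j
          · exact a2 i
        · obtain ⟨b1, b2, b3, b4⟩ := a3 x
          rcases j with j | j <;> rcases l with l | l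
          · exact b1 j l (fun h => hjl (by rw [h]))
          · exact b3 j l
          · exact fun h => b3 l j ⟨h.2, h.1⟩
          · exact b2 j l (fun h => hjl (by rw [h])))
    rw [← hB] at h3
    refine le_trans ?_ h3
    rw [Nat.cast_le]
    apply card_le_card
    intro t ht
    rw [mem_filter] at ht
    obtain ⟨ht1, ht2⟩ := ht
    rw [hT, mem_filter] at ht1
    obtain ⟨m0, m1, m2, m3, m4, m5, m6⟩ := ht1
    rw [mem_filter]
    refine ⟨m0, ht2, fun p hp hpM j => ?_⟩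
    have hpM' : ¬ p ∣ M := fun h => hpM (h.mul_left m)
    have hpm : ¬ p ∣ m := fun h => hpM (h.mul_right M)
    have hpp := (mem_PS.1 hp).2
    rcases j with j | i
    · intro hd
      apply hpm
      rw [hmp p hpp, hZmem]
      by_cases hd2 : (p : ℤ) ^ 2 ∣ (P j).eval (t : ℤ)
      · have h4 := dvd_S2 (f := fun j => (P j).eval (t : ℤ)) hp hd2
        rw [m3] at h4
        exact ⟨(j, 1), Nat.mem_primeFactors.2 ⟨hpp, h4, hD0 (j, 1)⟩⟩
      · have h4 := dvd_S1 (f := fun j => (P j).eval (t : ℤ)) hp hd hd2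
        rw [m2] at h4
        exact ⟨(j, 0), Nat.mem_primeFactors.2 ⟨hpp, h4, hD0 (j, 0)⟩⟩
    · exact m5 p hp hpM' i
  have hcop : ∀ p ∈ Z, ∀ l ∈ Z, p ≠ l → (ee y p).Coprime (ee y l) := by
    intro p hp l hl hne
    have h3 : p.Coprime l := (Nat.coprime_primes (hZp p hp) (hZp l hl)).2 hne
    unfold ee
    split_ifs
    · exact h3
    · exact h3.pow_right 2
    · exact h3.pow_left 2
    · exact h3.pow 2 2
  have hWmem : ∀ t ∈ T, ∀ p ∈ Z, t % ee y p ∈ WW P s v u E y p := by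
    intro t ht p hp
    have hpp := hZp p hp
    rw [mem_WW]
    have hmod : ((ee y p : ℕ) : ℤ) ∣ (t : ℤ) - ((t % ee y p : ℕ) : ℤ) := by
      exact Nat.modEq_iff_dvd.1 (Nat.mod_modEq t (ee y p))
    have hpe : (p : ℤ) ∣ ((ee y p : ℕ) : ℤ) := by
      unfold ee
      split_ifs
      · exact dvd_rfl
      · push_cast
        exact dvd_pow_self _ two_ne_zero
    have hes : p ≤ y → ((ee y p : ℕ) : ℤ) = (p : ℤ) ^ 2 := by
      intro h
      unfold ee
      rw [if_neg (not_lt.2 h)]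
      push_cast
      rfl
    have htp := hTt t ht
    have hmemt := ht
    rw [hT, mem_filter] at hmemt
    obtain ⟨-, m1, m2, m3, m4, m5, m6⟩ := hmemt
    refine ⟨Nat.mod_lt _ (hee1 p hp), fun j hj => ?_, fun j hj => ?_, fun j hj => ?_⟩
    · have hmem : p ∈ (DD s v u (j, 0)).primeFactors := Nat.mem_primeFactors.2 ⟨hpp, hj, hD0 (j, 0)⟩
      obtain ⟨a1, a2, -, -⟩ := htp (j, 0) p hmem
      obtain ⟨a3, a4⟩ := a2 rfl
      have hsq := hes a3
      refine ⟨(dvd_mod (P j) hmod hpe).1 a1, fun h => a4 ?_, ?_⟩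
      · exact (dvd_mod (P j) hmod (by rw [hsq])).2 h
      · have hprod : ∏ l, (P l).eval (t : ℤ) = (∏ l, P l).eval (t : ℤ) := (eval_prod _ _ _).symm
        have hprod' : ∏ l, (P l).eval ((t % ee y p : ℕ) : ℤ) =
            (∏ l, P l).eval ((t % ee y p : ℕ) : ℤ) := (eval_prod _ _ _).symm
        rw [← m6]
        unfold ng
        rw [mem_filter]
        have hps : p ∈ (∏ j, s j).primeFactors := Nat.mem_primeFactors.2
          ⟨hpp, hj.trans (dvd_prod_of_mem _ (mem_univ j)),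
            prod_ne_zero_iff.2 fun j _ => dv_ne_zero (sd j)⟩
        have h4 : (p : ℤ) ∣ (∏ l, P l).eval (t : ℤ) := by
          rw [← hprod]
          exact a1.trans (dvd_prod_of_mem (fun l => (P l).eval (t : ℤ)) (mem_univ j))
        have h5 := jac_mod hpp.ne_zero (D := (∏ l, P l).eval (t : ℤ))
          (D' := (∏ l, P l).eval ((t % ee y p : ℕ) : ℤ))
          (by
            rw [← hsq]
            exact eval_mod _ hmod) h4
        rw [hprod, hprod', ← h5]
        exact ⟨fun h => h.2, fun h => ⟨hps, h⟩⟩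
    · have hmem : p ∈ (DD s v u (j, 1)).primeFactors := Nat.mem_primeFactors.2 ⟨hpp, hj, hD0 (j, 1)⟩
      obtain ⟨-, -, a2, -⟩ := htp (j, 1) p hmem
      obtain ⟨a3, a4⟩ := a2 rfl
      exact (dvd_mod (P j) hmod (by rw [hes a3])).1 a4
    · have hmem : p ∈ (DD s v u (j, 2)).primeFactors := Nat.mem_primeFactors.2 ⟨hpp, hj, hD0 (j, 2)⟩
      obtain ⟨a1, -, -, -⟩ := htp (j, 2) p hmem
      exact (dvd_mod (P j) hmod hpe).1 a1
  have hcount := fiber_count T Z (ee y) (WW P s v u E y) B hWmem hcop hfib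
  refine hcount.trans ?_
  -- the product over the primes of `m M`
  have hcover : ∏ p ∈ (m * M).primeFactors.filter (fun p => p ∈ PS z y), (p : ℝ) / ((p : ℝ) - c) ≤
      (∏ p ∈ Z, hf c y p) * FM := by
    have h3 := prod_cover (S := (m * M).primeFactors.filter (fun p => p ∈ PS z y))
      (A := Z.filter (fun p => ¬ y < p)) (B := M.primeFactors.filter (fun p => z < p))
      (fun p => (p : ℝ) / ((p : ℝ) - c)) (by
        intro p hp
        rw [mem_filter] at hp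
        obtain ⟨hp1, hp2⟩ := hp
        have hpp := (mem_PS.1 hp2).2
        rcases (hpp.dvd_mul).1 (Nat.dvd_of_mem_primeFactors hp1) with h | h
        · exact mem_union_left _ (mem_filter.2 ⟨(hmp p hpp).1 h, not_lt.2 (mem_PS.1 hp2).1.2⟩)
        · exact mem_union_right _ (mem_filter.2 ⟨Nat.mem_primeFactors.2 ⟨hpp, h, hM⟩,
            (mem_PS.1 hp2).1.1⟩))
      (fun p hp => hF1 p (hZz p (mem_filter.1 hp).1)) (fun p hp => hF1 p (mem_filter.1 hp).2)
    refine h3.trans (le_of_eq ?_)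
    rw [← hFM, prod_filter]
    congr 1
    refine prod_congr rfl fun p _ => ?_
    unfold hf
    by_cases h : y < p
    · rw [if_pos h, if_neg (not_not.2 h)]
    · rw [if_neg h, if_pos h]
  have hmR : (m : ℝ) = ∏ p ∈ Z, (ee y p : ℝ) := by
    rw [hm]
    push_cast
    rfl
  have hm0 : (0 : ℝ) < m := by exact_mod_cast hm1
  have hW0 : 0 ≤ ∏ p ∈ Z, ((WW P s v u E y p).card : ℝ) := prod_nonneg fun p _ => Nat.cast_nonneg _
  have hlocal : (∏ p ∈ Z, ((WW P s v u E y p).card : ℝ)) * (∏ p ∈ Z, hf c y p) / m ≤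
      ∏ i : J × Fin 3, ∏ p ∈ (DD s v u i).primeFactors, tg r c i p := by
    rw [hmR, ← prod_mul_distrib, ← prod_div_distrib, hZprod]
    refine prod_le_prod (fun i _ => prod_nonneg fun p hp => ?_) fun i _ =>
      prod_le_prod (fun p hp => ?_) fun p hp => ?_
    · have hh : 0 ≤ hf c y p := by
        unfold hf
        split_ifs
        · exact zero_le_one
        · exact zero_le_one.trans (hF1 p (hDz i p hp))
      exact div_nonneg (mul_nonneg (Nat.cast_nonneg _) hh) (Nat.cast_nonneg _)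
    · have hh : 0 ≤ hf c y p := by
        unfold hf
        split_ifs
        · exact zero_le_one
        · exact zero_le_one.trans (hF1 p (hDz i p hp))
      exact div_nonneg (mul_nonneg (Nat.cast_nonneg _) hh) (Nat.cast_nonneg _)
    · have hpp := Nat.prime_of_mem_primeFactors hp
      obtain ⟨a1, a2, a3⟩ := hPQ p hpp (hDz i p hp) (hnM i p hp)
      have hcp : ∀ j, r j p ≤ c := by
        intro j
        refine le_trans ?_ (hc p)
        have := single_le_sum (f := fun j => r j p) (fun j _ => Nat.zero_le _) (mem_univ j)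
        exact this.trans (Nat.le_add_right _ _)
      obtain ⟨b1, b2, b3, b4⟩ := hTt t0 ht0 i p hp
      have hk3 : ∀ k : Fin 3, k ≠ 2 → k = 0 ∨ k = 1 := by decide
      refine local_bound h2 r P s v u E c z y p hz hpp (hDz i p hp) hcp a1
        (fun j l hjl x => (a3 x).1 j l hjl) (fun j x => (a3 x).2.2.2 j) i
        (Nat.dvd_of_mem_primeFactors hp) (fun hk => ?_) b4
      rcases hk3 i.2 hk with h | h
      · exact (b2 h).1
      · exact (b3 h).1
  have hXm : 0 ≤ C * (X / m : ℝ) := mul_nonneg hC (div_nonneg (Nat.cast_nonneg _) hm0.le)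
  rw [hB, Fintype.card_sum]
  calc (∏ p ∈ Z, ((WW P s v u E y p).card : ℝ)) * (C * (X / m) *
        (∏ p ∈ (m * M).primeFactors.filter (fun p => p ∈ PS z y), (p : ℝ) / ((p : ℝ) - c)) /
        (Real.log y) ^ (Fintype.card J + Fintype.card I)) ≤
      (∏ p ∈ Z, ((WW P s v u E y p).card : ℝ)) * (C * (X / m) *
        ((∏ p ∈ Z, hf c y p) * FM) / (Real.log y) ^ (Fintype.card J + Fintype.card I)) := by
        apply mul_le_mul_of_nonneg_left _ hW0
        apply div_le_div_of_nonneg_right _ hL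
        exact mul_le_mul_of_nonneg_left hcover hXm
    _ = C * X * ((∏ p ∈ Z, ((WW P s v u E y p).card : ℝ)) * (∏ p ∈ Z, hf c y p) / m) * FM /
        (Real.log y) ^ (Fintype.card J + Fintype.card I) := by ring
    _ ≤ _ := by
        apply div_le_div_of_nonneg_right _ hL
        apply mul_le_mul_of_nonneg_right _ hFM0
        exact mul_le_mul_of_nonneg_left hlocal (mul_nonneg hC (Nat.cast_nonneg _))

end Pool.Agent.W612.QF
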